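import Mathlib
import Pool.Agent.W516.DRDefs
import Pool.Agent.W516.K3.Defs
import Pool.Agent.W516.K3.Link
import Pool.Agent.W516.K3.Main
import Pool.Agent.W516.K3.Main2
import Pool.Agent.W516.K3.Total
import Pool.Agent.W516.KU.Defs
import Pool.Agent.W516.KU.Defs2
import Pool.Agent.W516.KU.Ext
import Pool.Agent.W516.KU.Final

/-!
# The period conjecture for the powers of K3 surfaces with multiplication by an imaginary
quadratic field

Let `X` be a projective K3 surface (or a projective hyper-Kähler variety) over an algebraically
closed subfield `K` of the complex numbers (the field of algebraic numbers) and `T` its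
transcendental lattice.  Assume that the algebra of the endomorphisms of the Hodge structure `T` is
an imaginary quadratic field `E = k(δ)`, `δ² = -d`, and that `dim_E T` is even and at least four:
the rank of `T` is 8, 12, 16 or 20.  Examples are the general members of the families of K3
surfaces with a non-symplectic automorphism of order three or four, for instance of the
nine-dimensional family with an automorphism of order three and `rank T = 20`.  We prove
that all de Rham-Betti classes in all tensor powers of `H^2(X)(1)`, that is, on the powers of `X`,
are linear combinations of products of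

* the intersection form `b` on `T` (a component of the class of the diagonal),
* the form `b(δ u, v)` (the class of an algebraic correspondence on `X × X`),
* the classes of divisors.

So they are algebraic: the statement `GPC^k(X^m)` holds for all `m` and all `k`.

In the Lean statement `T` is given with its intersection form `b`; `ξ` is a `K`-structure on the
space of the linear maps `T → ℂ`: this is the de Rham-Betti structure on `T(1)`.  The space
`k^c × T` is `H^2(X)(1)`, where `c` is the Picard number.  `H` is the first homology of the
Kuga-Satake abelian variety, with the de Rham-Betti structure `θ`, on which `T` acts by the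
Clifford multiplications `γ`.  The hypotheses `hγ` and `hδ` are theorems of Deligne and André,
`hss` and `hend` are consequences of the analytic subgroup theorem of Wüstholz and of the theorem
of Zarhin on the Hodge group of `T`: its Lie algebra, the unitary Lie algebra, is spanned by the
`d [γ u, γ v] + [γ (δ u), γ (δ v)]`.

The proof: the Lie algebra `g` of the real endomorphisms of `T` that annihilate the
de Rham-Betti classes acts irreducibly, with commutant `ℂ`; it is reductive and contains the real
hyperbolic parts of its elements.  A Perron-Frobenius argument gives a nonzero hyperbolic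
element, and the grading defined by it shows that `g` contains the special unitary Lie algebra or
preserves a real form of `T` up to the centre.  Explicit elements of the Clifford
algebra exclude the second case if `n` is even and show that the centre is in `g`.
-/

namespace Pool.Agent.Results.MP_77d3f5_ag.ImaginaryQuadraticKThree

open Module TensorProduct Pool.Agent.W516.DR Pool.Agent.W516.K3 Pool.Agent.W516.KU

/-- De Rham-Betti classes on the powers of a K3 surface with multiplication by an imaginary
quadratic field. -/
theorem result {k K : Type} [Field k] [CharZero k] [Field K] [IsAlgClosed K] [CharZero K]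
    [Algebra k K] [Algebra k ℂ] [Algebra K ℂ] [IsScalarTower k K ℂ] [Algebra k ℝ]
    [IsScalarTower k ℝ ℂ]
    -- the transcendental lattice with its intersection form and its periods
    {T : Type} [AddCommGroup T] [Module k T] [FiniteDimensional k T] (hn : 8 ≤ finrank k T)
    (h4 : 4 ∣ finrank k T)
    (b : T →ₗ[k] T →ₗ[k] k) (hsym : ∀ u v, b u v = b v u) (hnd : ∀ u, (∀ v, b u v = 0) → u = 0)
    (hsig : SignatureTwo (bx ℝ b))
    {ι : Type} [Fintype ι] [DecidableEq ι] (ξ : Basis ι ℂ (T →ₗ[k] ℂ))
    -- the multiplication by an imaginary quadratic field
    (δ : T →ₗ[k] T) (d : k) (hd : 0 < algebraMap k ℝ d) (hδδ : ∀ u, δ (δ u) = -(d • u))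
    (hδb : ∀ u v, b (δ u) v = -b u (δ v)) (hδ : IsDeRhamBettiEnd K ξ δ)
    -- the Kuga-Satake abelian variety
    {H : Type} [AddCommGroup H] [Module k H] [FiniteDimensional k H] [Nontrivial H]
    {ν : Type} [Fintype ν] [DecidableEq ν] (θ : Basis ν ℂ (H →ₗ[k] ℂ))
    (γ : T →ₗ[k] Module.End k H)
    (hcl : ∀ u v, γ u * γ v + γ v * γ u = (2 * b u v) • (1 : Module.End k H))
    (hγ : IsDRBAction K ξ θ γ)
    -- the theorem of Wüstholz
    (hss : DeRhamBettiSemisimple K θ)
    (hend : ∀ P : Module.End k H, IsDeRhamBettiEnd K θ P →
      ∀ u v, P * (d • sp γ u v + sp γ (δ u) (δ v)) = (d • sp γ u v + sp γ (δ u) (δ v)) * P)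
    -- a de Rham-Betti class in a tensor power of the second cohomology
    (c : ℕ) (hc : 0 < c) {κ : Type} [Fintype κ] [DecidableEq κ]
    (φ : MultilinearMap k (fun _ : κ => (Fin c → k) × T) k) (hφ : IsDRBForm K (perSum c ξ) φ) :
    φ ∈ Submodule.span k {ψ | IsMonomialB ![b, b ∘ₗ δ] ψ} := by
  have hsig' : WittTwo (bx ℝ b) := by
    obtain ⟨h1, h2⟩ := indef_of_signature _ hsig (by
      rw [Module.finrank_baseChange]
      omega)
    exact ⟨h1, h2, witt_of_signature _ hsig⟩
  exact drb_totalJ (K := K) ξ θ b γ δ d hsym hnd hd
    (LinearMap.ext fun u => by
      rw [Module.End.mul_apply, hδδ, LinearMap.neg_apply, LinearMap.smul_apply,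
        Module.End.one_apply]) hδb hδ hcl hγ hss hend
    p_irr p_desc p_kill p_adj p_pf p_cas p_split p_norm p_du p_ua p_ue p_ub p_cla p_clb p_totb
    p_ufft (by omega) h4 hsig' c hc φ hφ

end Pool.Agent.Results.MP_77d3f5_ag.ImaginaryQuadraticKThree
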