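import Mathlib
import Pool.Agent.W446.GP.Class
import Pool.Agent.H340R2.LW

/-!
# The subtorsors of the motivic torsor of periods of `A × B` containing the comparison isomorphism

`A` is an abelian variety of CM type and `B` an abelian variety over the field `Qb` of algebraic
numbers all of whose simple factors `B'` are of relative dimension one, without complex
multiplication, i.e. `End(B') ⊗ ℚ` is a totally real field of degree `dim B'`, or a totally
indefinite quaternion algebra over a totally real field of degree `dim B' / 2`.  For example `A` is
a product of elliptic curves with complex multiplication and `B` a product of elliptic curves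
without complex multiplication, or `A × B` is the Jacobian of a modular curve.

The cohomology of `B` decomposes over `Qb` in pieces of dimension two, which are indexed by a finite
set `J` (one for each simple factor of `B` up to isogeny and each embedding of the centre of its
endomorphism algebra), and the Mumford-Tate group of `A` is a torus, which is split over `Qb`.  We
choose a basis of its character group, indexed by the finite set `R`, which contains the multiplier
character `a ∈ R`.  (If there is no factor `A`, then `R = {a}`.)  So in suitable bases over `Qb`,
the de Rham cohomology of `A × B` and its comparison isomorphism are given by the vector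
`p ∈ (ℂ^×)^R` of the periods of the one-dimensional pieces, with `p_a = 2 π i`, and the period
matrices `c_j ∈ GL_2(ℂ)`, `j ∈ J`, with `det c_j = 2 π i` (the relation of Legendre and Riemann).
The pair `x = (p, c)` is the comparison isomorphism, and the torsor of the isomorphisms respecting
all Hodge classes on all powers of `A × B` (the motivic torsor, if the Hodge classes on the powers
of `A` are algebraic) is the set `Om a` of all `(q, d) ∈ (ℂ^×)^R × GL_2(ℂ)^J` with
`det d_j = q_a` for all `j ∈ J`.

By the analytic subgroup theorem of Wüstholz the `4 |J|` entries of the matrices `c_j` are linearly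
independent over `Qb`; this is the hypothesis `hind` of the theorem.  Nothing is assumed on the
periods `p` of `A`.

The theorem: the subtorsors over `Qb` of `Om a` containing `x` are exactly the sets
`subT a x N = {(q, d) ∈ Om a | q ^ m = p ^ m for all m ∈ N}`, where `N` is a group of exponents
`m ∈ ℤ^R` such that `p ^ m` is algebraic.  So all relations defining such a torsor come from
algebraic monomials in the periods of the CM part `A`.  For the conjecture of Grothendieck we get
that the closure `Z` of the comparison isomorphism is equal to `Om a` if and only if `Z` is a torsor
and there are no nontrivial algebraic monomials in the periods of `A`.  If there is no factor `A`,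
then there are no such monomials by the theorem of Lindemann.
-/

namespace Pool.Agent.Results.MP_77d3f5_ag.MinimalTorsor

open Pool.Agent.W446.GP

/-- The subtorsors of the motivic torsor of periods of `A × B` which contain the comparison
isomorphism `x`. -/
theorem result {R J : Type} [Fintype R] [Fintype J] (a : R) (x : (Alg R J)ˣ)
    -- the determinants of the period matrices
    (hdet : ∀ j, ((x : Alg R J).2 j).det = (x : Alg R J).1 a)
    -- the theorem of Wüstholz
    (hind : LinearIndependent Qb fun t : J × Fin 2 × Fin 2 => (x : Alg R J).2 t.1 t.2.1 t.2.2) :
    -- the subtorsors of the motivic torsor containing the comparison isomorphism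
    (∀ T : Set (Alg R J)ˣ, x ∈ T →
      (IsTorsor T ∧ T ⊆ Om a ↔ ∃ N ≤ algMono x, T = subT a x N)) ∧
    -- the conjecture of Grothendieck
    (clos x = Om a ↔ IsTorsor (clos x) ∧ algMono x = ⊥) ∧
    -- the case without a CM factor
    ((∀ r, r = a) → (x : Alg R J).1 a = 2 * Real.pi * Complex.I → algMono x = ⊥) := by
  classical
  refine ⟨fun T hxT => ⟨?_, ?_⟩, clos_eq_iff a hdet hind, ?_⟩
  · rintro ⟨hT, hTO⟩
    obtain ⟨N, hN, h⟩ := torsor_eq a hdet hind hT hxT
    exact ⟨N, hN, by rw [← h, Set.inter_eq_left.2 hTO]⟩
  · rintro ⟨N, hN, rfl⟩
    exact ⟨isTorsor_subT a hdet N hN, fun u hu => hu.1⟩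
  · intro hR hx
    rw [eq_bot_iff]
    intro m hm
    rw [AddSubgroup.mem_bot]
    have h1 : mono m (x : Alg R J).1 ∈ Qb := hm
    have h2 : mono m (x : Alg R J).1 = (2 * Real.pi * Complex.I) ^ m a := by
      unfold mono
      rw [Finset.prod_eq_single a (fun b _ hb => (hb (hR b)).elim)
        (fun h => (h (Finset.mem_univ _)).elim), hx]
    rw [h2] at h1
    have h3 : m a = 0 := by
      by_contra h0
      have h4 : (2 * Real.pi * Complex.I : ℂ) ∈ Qb := by
        rcases lt_or_gt_of_ne h0 with hneg | hpos
        · have h5 : ((2 * Real.pi * Complex.I : ℂ) ^ (-m a).toNat) ∈ Qb := by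
            have h6 := Qb.inv_mem h1
            rw [← zpow_neg] at h6
            have h7 : (-m a) = ((-m a).toNat : ℤ) := (Int.toNat_of_nonneg (by omega)).symm
            rw [h7, zpow_natCast] at h6
            exact h6
          exact mem_of_pow (by omega) h5
        · have h5 : ((2 * Real.pi * Complex.I : ℂ) ^ (m a).toNat) ∈ Qb := by
            have h7 : (m a) = ((m a).toNat : ℤ) := (Int.toNat_of_nonneg (by omega)).symm
            rw [h7, zpow_natCast] at h1
            exact h1
          exact mem_of_pow (by omega) h5
      have h5 : (Real.pi : ℂ) ∈ Qb := by
        have h6 : (2 * Complex.I : ℂ) ∈ Qb := by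
          apply mem_of_pow (n := 2) two_pos
          have h7 : (2 * Complex.I : ℂ) ^ 2 = ((-4 : ℚ) : ℂ) := by
            rw [mul_pow, Complex.I_sq]
            norm_num
          rw [h7]
          exact Qb.algebraMap_mem (-4 : ℚ)
        have h7 : (Real.pi : ℂ) = (2 * Real.pi * Complex.I) / (2 * Complex.I) := by
          have : (2 * Complex.I : ℂ) ≠ 0 := by simp
          field_simp
        rw [h7]
        exact Qb.div_mem h4 h6
      exact Pool.Agent.H340R2.LW.transcendental_pi_complex (mem_algebraicClosure_iff.1 h5)
    funext r
    rw [hR r, h3]
    rfl

end Pool.Agent.Results.MP_77d3f5_ag.MinimalTorsor
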