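import Mathlib
import Pool.Agent.H204R3.SP.Lie
import Pool.Agent.H204R3.GP.MTDefs
import Pool.Agent.W516.DRDefs
import Pool.Agent.W516.DRHodge
import Pool.Agent.W516.DRRank
import Pool.Agent.W516.DRStmt

/-!
# One relation of degree four between the periods of an abelian variety

Let `A` be an abelian variety without factors of type IV over an algebraically closed subfield `K`
of the complex numbers (the field of algebraic numbers).  The conjecture of Grothendieck predicts, in
particular, that the relations `c(α) = (2 π i)^m β`, where `α` is an element of the de Rham and `β`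
of the Betti cohomology of a power of `A`, come from algebraic cycles.  We prove that there is ONE
such relation `Θ`, in the tensor power `H^1(A)^{⊗ 4}(2)` and so in the cohomology `H^4(A^4)(2)`, which
controls all of them:

* all relations of this type (of any degree) are, infinitesimally and up to the relations given by
  the endomorphisms and the polarization, consequences of `Θ`: an endomorphism `Z` of `H_1(A)` which
  is compatible with the endomorphisms and with the polarization and annihilates `Θ` annihilates all
  of them;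
* if `Θ` is (a linear combination of) Hodge classes, and so comes from algebraic or at least from
  motivated cycles, then all of them are.

The coefficients of the Betti classes `β` are taken in any subfield `k` of `K`.

In the Lean statement `W` is `H_1(A, ℚ)`, `T` is the tangent space of `A(ℂ)` at the origin and
`per : W → T` the inclusion, `ω₀` is the form given by a polarization.  `η` is a `K`-basis of
`H^1_dR(A / K)`, considered, by integration, as a basis of the space of the linear maps from `k ⊗ W`
to `ℂ`, and `τ` is `2 π i`.  The hypotheses `hss` and `hW` are consequences of the analytic subgroup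
theorem of Wüstholz.
-/

namespace Pool.Agent.Results.MP_77d3f5_ag.OneQuarticClass

open Module TensorProduct Pool.Agent.H204R3.SP Pool.Agent.H204R3.GP Pool.Agent.W516.DR

/-- One de Rham-Betti class in four variables controls all of them. -/
theorem result {k K : Type} [Field k] [CharZero k] [Field K] [IsAlgClosed K] [CharZero K]
    [Algebra k K] [Algebra k ℂ] [Algebra K ℂ] [IsScalarTower k K ℂ]
    -- the complex torus `A(ℂ)` with a polarization
    {W T : Type} [AddCommGroup W] [Module ℚ W] [FiniteDimensional ℚ W]
    [AddCommGroup T] [Module ℂ T] (per : W →+ T) (hper : IsRationalStructure per)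
    (ω₀ : W →ₗ[ℚ] W →ₗ[ℚ] ℚ) (hω₀ : IsHodgeBilinear per ω₀)
    (hnd : ∀ u, (∀ v, ω₀ u v = 0) → u = 0) (hIV : NoTypeIV per ω₀)
    -- the de Rham cohomology
    {ι : Type} [Fintype ι] (η : Basis ι ℂ (k ⊗[ℚ] W →ₗ[k] ℂ)) (τ : ℂ) (hτ : τ ≠ 0)
    (ω : k ⊗[ℚ] W →ₗ[k] k ⊗[ℚ] W →ₗ[k] k)
    (hωω : ∀ u v : W, ω ((1 : k) ⊗ₜ[ℚ] u) ((1 : k) ⊗ₜ[ℚ] v) = ((ω₀ u v : ℚ) : k))
    (hω : IsDeRhamBettiBilinear K η τ ω)
    -- the theorem of Wüstholz
    (hss : DeRhamBettiSemisimple K η) (hW : WustholzEnd per K η) :
    ∃ Θ : MultilinearMap k (fun _ : Fin 2 × Fin 2 => k ⊗[ℚ] W) k,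
      IsDeRhamBettiForm K η τ 2 Θ ∧
      (∀ Z : k ⊗[ℚ] W →ₗ[k] k ⊗[ℚ] W, (∀ u v, ω (Z u) v + ω u (Z v) = 0) →
        (∀ P : W →ₗ[ℚ] W, IsHodgeEnd per P → Z ∘ₗ P.baseChange k = P.baseChange k ∘ₗ Z) →
        Kills Z Θ → ∀ (m : ℕ) (φ : MultilinearMap k (fun _ : Fin m × Fin 2 => k ⊗[ℚ] W) k),
        IsDeRhamBettiForm K η τ m φ → Kills Z φ) ∧
      (IsHodgeCombination per Θ → ∀ (m : ℕ)
        (φ : MultilinearMap k (fun _ : Fin m × Fin 2 => k ⊗[ℚ] W) k),
        IsDeRhamBettiForm K η τ m φ → IsHodgeCombination per φ) :=
  exists_class' per η ω₀ ω hper hω₀ hnd hτ hωω hω hss hW hIV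

end Pool.Agent.Results.MP_77d3f5_ag.OneQuarticClass
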