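import Mathlib
import Pool.Agent.W516.DRDefs
import Pool.Agent.H204R3.SP.Lie
import Pool.Agent.W516.K3.Defs
import Pool.Agent.W516.K3.Defs4
import Pool.Agent.W516.K3.Link
import Pool.Agent.W516.K3.Main
import Pool.Agent.W516.K3.Main2
import Pool.Agent.W516.K3.SpinFinal

/-!
# De Rham-Betti classes on the powers of abelian varieties of spin type

Let `A` be an abelian variety over an algebraically closed subfield `K` of the complex numbers (the
field of algebraic numbers) whose first homology `H` is a module over the Clifford algebra of a
Hodge structure `T` of K3 type, `dim T ≥ 6`.  Examples are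

* abelian fourfolds of Weil type: the endomorphism algebra is an imaginary quadratic field `F`, with
  signature `(2, 2)`.  Then `T` (of dimension `6`, with coefficients in `k`, the field of rational
  numbers or a real quadratic field) is the space of the `F`-antilinear maps in `k ⊗ H` fixed by
  the star operator;
* the Kuga-Satake varieties of K3 surfaces and of hyper-Kähler varieties.

We prove that all de Rham-Betti classes on all powers of `A` (the relations `c(α) = (2 π i)^m β`
between de Rham classes `α` and Betti classes `β`, which should come from algebraic cycles according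
to the conjecture of Grothendieck) are annihilated by the spin Lie algebra of `T` and so are Hodge
classes, if the Mumford-Tate group of `A` is as large as possible, i.e. if all endomorphisms of `A`
commute with the even Clifford algebra.  Hence the comparison isomorphism is not contained in a
smaller torsor defined by such relations than the one defined by the Hodge classes.  For the
abelian fourfolds of Weil type all Hodge classes on all powers are algebraic (Markman), so all
de Rham-Betti classes on all powers are algebraic.

In the Lean statement, `ξ` and `θ` are `K`-structures on the spaces of the linear maps from `T` and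
`H` to `ℂ` (de Rham cohomology) given by integration, `τ` is `2 π i`, `ω` a polarization of `A` and
`γ` the Clifford multiplication.  `hγ` is a theorem of Deligne (Hodge classes on abelian varieties are
absolute Hodge classes), `hss` and `hend` follow from the analytic subgroup theorem of Wüstholz.
-/

namespace Pool.Agent.Results.MP_77d3f5_ag.SpinAbelianVarieties

open Module TensorProduct Pool.Agent.H204R3.SP Pool.Agent.W516.DR Pool.Agent.W516.K3

/-- De Rham-Betti classes on the powers of an abelian variety of spin type. -/
theorem result {k K : Type} [Field k] [CharZero k] [Field K] [IsAlgClosed K] [CharZero K]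
    [Algebra k K] [Algebra k ℂ] [Algebra K ℂ] [IsScalarTower k K ℂ] [Algebra k ℝ]
    [IsScalarTower k ℝ ℂ]
    -- the quadratic space `T` with its periods
    {T : Type} [AddCommGroup T] [Module k T] [FiniteDimensional k T] (hn : 6 ≤ finrank k T)
    (b : T →ₗ[k] T →ₗ[k] k) (hsym : ∀ u v, b u v = b v u) (hnd : ∀ u, (∀ v, b u v = 0) → u = 0)
    (hsig : WittTwo (bx ℝ b))
    {ι : Type} [Fintype ι] [DecidableEq ι] (ξ : Basis ι ℂ (T →ₗ[k] ℂ))
    -- the homology `H` of the abelian variety with its periods and a polarization
    {H : Type} [AddCommGroup H] [Module k H] [FiniteDimensional k H] [Nontrivial H]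
    {ν : Type} [Fintype ν] [DecidableEq ν] (θ : Basis ν ℂ (H →ₗ[k] ℂ)) (τ : ℂ) (hτ : τ ≠ 0)
    (ω : H →ₗ[k] H →ₗ[k] k) (hωnd : ∀ u, (∀ v, ω u v = 0) → u = 0)
    (hω : IsDeRhamBettiBilinear K θ τ ω)
    -- the Clifford multiplication
    (γ : T →ₗ[k] Module.End k H)
    (hcl : ∀ u v, γ u * γ v + γ v * γ u = (2 * b u v) • (1 : Module.End k H))
    (hγ : IsDRBAction K ξ θ γ)
    -- the theorem of Wüstholz
    (hss : DeRhamBettiSemisimple K θ)
    (hend : ∀ P : Module.End k H, IsDeRhamBettiEnd K θ P ↔
      ∀ u v, P * (γ u * γ v) = (γ u * γ v) * P)
    -- a de Rham-Betti class on a power of the abelian variety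
    (m : ℕ) (φ : MultilinearMap k (fun _ : Fin m × Fin 2 => H) k)
    (hφ : IsDeRhamBettiForm K θ τ m φ) :
    (∀ u v, Kills (γ u * γ v - γ v * γ u) φ) ∧
    ∀ σ σ' : ℂ ⊗[k] T, bx ℂ b σ σ' ≠ 0 → IsHodgeCl γ σ σ' φ :=
  spin_total ξ θ b γ hτ ω hsym hnd hn hsig hcl hγ hωnd hω hss hend m φ hφ

end Pool.Agent.Results.MP_77d3f5_ag.SpinAbelianVarieties
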